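import Pool.Agent.W763.PB.Stm

/-!
Project PB (MP_c88e0f_an): uniform power bound on all levels.
-/

set_option autoImplicit false
open MeasureTheory Filter Topology
open scoped InnerProductSpace BoundedContinuousFunction

namespace Pool.Agent.W32.PB

open Pool.Agent.W763.PB

theorem est (h2 : S_R2) : S_EST := by
  intro k b hk hb H _ _ _ U D J hL hS l n hn x
  obtain ⟨hb64, -, hkb, -, hsum⟩ := h2 k b hk hb
  have hk0 : (0 : ℝ) < k := by linarith
  have hk1 : (1 : ℝ) ≤ k := by linarith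
  have hb0 : (0 : ℝ) < b := by linarith
  have hb2 : (0 : ℝ) < (b : ℝ) - 2 := by linarith
  have hbn : 1 < b := by
    have : (1 : ℝ) < b := by linarith
    exact_mod_cast this
  rcases Nat.eq_zero_or_pos n with h0 | hpos
  · subst h0
    have h1 : (U (l + 1) ^ 0) x = x := by simp
    rw [h1]
    nlinarith [norm_nonneg (D (l + 1) x)]
  set i := Nat.log b n with hi
  have hlo : b ^ i ≤ n := Nat.pow_log_le_self b (by omega)
  have hhi : n < b ^ (i + 1) := Nat.lt_pow_succ_log_self hbn n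
  have hil : i < l := by
    by_contra hcon
    push Not at hcon
    have : b ^ l ≤ b ^ i := Nat.pow_le_pow_right (by omega) hcon
    omega
  have hbi : (0 : ℝ) < ((b ^ i : ℕ) : ℝ) := by
    exact_mod_cast Nat.pow_pos (by omega)
  -- claim A
  have hA : ∀ F, ‖D (i + 1) ((U (i + 1) ^ n) F)‖ ^ 2 ≤ 3 * kh k b (b ^ i) n * ‖D (i + 1) F‖ ^ 2 :=
    (hS i).r1 n hlo (by rw [pow_succ] at hhi; rw [mul_comm]; exact hhi)
  -- claim B
  have hexp : k ^ (-((n : ℝ) / ((b ^ (i + 1) : ℕ) : ℝ))) * (3 * kh k b (b ^ i) n) ≤ 6 := by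
    have hyb : ((b ^ (i + 1) : ℕ) : ℝ) = (b : ℝ) * ((b ^ i : ℕ) : ℝ) := by
      push_cast; ring
    have h1 : kh k b (b ^ i) n ≤ k ^ ((n : ℝ) / (((b : ℝ) - 2) * ((b ^ i : ℕ) : ℝ))) := by
      unfold kh
      exact Real.rpow_le_rpow_of_exponent_le hk1 (min_le_right _ _)
    have h3 : k ^ (-((n : ℝ) / ((b ^ (i + 1) : ℕ) : ℝ))) *
        k ^ ((n : ℝ) / (((b : ℝ) - 2) * ((b ^ i : ℕ) : ℝ))) ≤ k ^ (2 / ((b : ℝ) - 2)) := by
      rw [← Real.rpow_add hk0]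
      apply Real.rpow_le_rpow_of_exponent_le hk1
      rw [hyb]
      have hy1 : (n : ℝ) < (b : ℝ) * ((b ^ i : ℕ) : ℝ) := by
        rw [← hyb]
        exact_mod_cast hhi
      have e1 : -((n : ℝ) / ((b : ℝ) * ((b ^ i : ℕ) : ℝ))) +
          (n : ℝ) / (((b : ℝ) - 2) * ((b ^ i : ℕ) : ℝ)) =
          (2 / ((b : ℝ) - 2)) * ((n : ℝ) / ((b : ℝ) * ((b ^ i : ℕ) : ℝ))) := by
        field_simp
        ring
      rw [e1]
      have h4 : (n : ℝ) / ((b : ℝ) * ((b ^ i : ℕ) : ℝ)) ≤ 1 := by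
        rw [div_le_one (by positivity)]
        exact hy1.le
      calc (2 / ((b : ℝ) - 2)) * ((n : ℝ) / ((b : ℝ) * ((b ^ i : ℕ) : ℝ)))
          ≤ (2 / ((b : ℝ) - 2)) * 1 := mul_le_mul_of_nonneg_left h4 (by positivity)
        _ = _ := mul_one _
    have hp : 0 ≤ k ^ (-((n : ℝ) / ((b ^ (i + 1) : ℕ) : ℝ))) := Real.rpow_nonneg hk0.le _
    calc k ^ (-((n : ℝ) / ((b ^ (i + 1) : ℕ) : ℝ))) * (3 * kh k b (b ^ i) n)
        = 3 * (k ^ (-((n : ℝ) / ((b ^ (i + 1) : ℕ) : ℝ))) * kh k b (b ^ i) n) := by ring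
      _ ≤ 3 * (k ^ (-((n : ℝ) / ((b ^ (i + 1) : ℕ) : ℝ))) *
            k ^ ((n : ℝ) / (((b : ℝ) - 2) * ((b ^ i : ℕ) : ℝ)))) :=
          mul_le_mul_of_nonneg_left (mul_le_mul_of_nonneg_left h1 hp) (by norm_num)
      _ ≤ 3 * 2 := mul_le_mul_of_nonneg_left (h3.trans hkb) (by norm_num)
      _ = 6 := by norm_num
  have hB : ∀ F, ‖D (i + 1 + 1) ((U (i + 1 + 1) ^ n) F)‖ ^ 2 ≤ 11 * ‖D (i + 1 + 1) F‖ ^ 2 :=
    (hS (i + 1)).r2 n hhi (3 * kh k b (b ^ i) n) hexp hA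
  -- claim C
  have hC : ∀ s : ℕ, ∀ F : H (i + 1 + s + 1), ‖D (i + 1 + s + 1) ((U (i + 1 + s + 1) ^ n) F)‖ ≤
      (Real.sqrt 11 + ∑ r ∈ Finset.range s, k * Real.sqrt (2 * (1 / (b : ℝ)) ^ r * (1 / (b : ℝ)))) *
        ‖D (i + 1 + s + 1) F‖ := by
    intro s
    induction s with
    | zero =>
      intro F
      have h := hB F
      simp only [Finset.range_zero, Finset.sum_empty, add_zero]
      have h5 : ‖D (i + 1 + 1) ((U (i + 1 + 1) ^ n) F)‖ ^ 2 ≤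
          (Real.sqrt 11 * ‖D (i + 1 + 1) F‖) ^ 2 := by
        rw [mul_pow, Real.sq_sqrt (by norm_num)]
        exact h
      exact le_of_sq_le_sq h5 (by positivity)
    | succ s ih =>
      intro F
      have hg : Real.sqrt 2 ≤ Real.sqrt 11 +
          ∑ r ∈ Finset.range s, k * Real.sqrt (2 * (1 / (b : ℝ)) ^ r * (1 / (b : ℝ))) := by
        have h6 : Real.sqrt 2 ≤ Real.sqrt 11 := Real.sqrt_le_sqrt (by norm_num)
        have h7 : 0 ≤ ∑ r ∈ Finset.range s,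
            k * Real.sqrt (2 * (1 / (b : ℝ)) ^ r * (1 / (b : ℝ))) :=
          Finset.sum_nonneg fun r _ => mul_nonneg hk0.le (Real.sqrt_nonneg _)
        linarith
      have hlt : n < b ^ (i + 1 + s + 1) :=
        lt_of_lt_of_le hhi (Nat.pow_le_pow_right (by omega) (by omega))
      have h8 := (hS (i + 1 + s + 1)).r3 n hlt _ hg ih F
      refine h8.trans (mul_le_mul_of_nonneg_right ?_ (norm_nonneg _))
      rw [Finset.sum_range_succ, ← add_assoc]
      refine add_le_add le_rfl (mul_le_mul_of_nonneg_left (Real.sqrt_le_sqrt ?_) hk0.le)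
      rw [mul_assoc]
      refine mul_le_mul_of_nonneg_left ?_ (by norm_num)
      have h9 : ((b ^ (i + 1 + s + 1) : ℕ) : ℝ) = (b : ℝ) ^ (i + 1) * (b : ℝ) ^ (s + 1) := by
        push_cast
        rw [← pow_add]
        congr 1
      have h10 : (n : ℝ) ≤ (b : ℝ) ^ (i + 1) := by exact_mod_cast hhi.le
      rw [h9, ← pow_succ, one_div, inv_pow, div_le_iff₀ (by positivity)]
      calc (n : ℝ) ≤ (b : ℝ) ^ (i + 1) := h10
        _ = ((b : ℝ) ^ (s + 1))⁻¹ * ((b : ℝ) ^ (i + 1) * (b : ℝ) ^ (s + 1)) := by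
          field_simp
  obtain ⟨s, rfl⟩ : ∃ s, l = i + 1 + s := ⟨l - (i + 1), by omega⟩
  refine (hC s x).trans (mul_le_mul_of_nonneg_right ?_ (norm_nonneg _))
  have h11 : Real.sqrt 11 ≤ 4 := by
    rw [Real.sqrt_le_left (by norm_num)]
    norm_num
  have h12 := hsum s
  linarith

end Pool.Agent.W32.PB
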